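import Pool.Agent.Work.MP_02f065_gt.RP3.Defs
import Pool.Agent.Work.MP_02f065_gt.Toric.Defs

/-! Passage between the two versions of the definitions. -/

open MeasureTheory Set

noncomputable section

namespace Pool.Agent.Work.MP_02f065_gt.RP3

/-- The field of continuous bilinear forms of `g`. -/
def toForm (g : E → E → E → ℝ) : Toric.Form := fun x =>
  ∑ i : Fin 4, ∑ j : Fin 4, g x (ei i) (ei j) •
    (EuclideanSpace.proj i : E →L[ℝ] ℝ).smulRight (EuclideanSpace.proj j : E →L[ℝ] ℝ)

theorem sum_ei (v : E) : v = ∑ i : Fin 4, v i • ei i := by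
  ext k
  simp [ei, Fin.sum_univ_four]
  fin_cases k <;> simp

variable {g : E → E → E → ℝ}

theorem toForm_apply (hg : IsMetric g) (x v w : E) : toForm g x v w = g x v w := by
  have h0 : ∀ w, g x 0 w = 0 := by
    intro w
    have := hg.smul x 0 w 0
    simpa using this
  have hsum : ∀ (s : Finset (Fin 4)) (f : Fin 4 → E) (w : E),
      g x (∑ i ∈ s, f i) w = ∑ i ∈ s, g x (f i) w := by
    intro s f w
    classical
    induction s using Finset.induction_on with
    | empty => simp [h0]
    | insert a s ha ih => rw [Finset.sum_insert ha, Finset.sum_insert ha, hg.add, ih]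
  have h1 : g x v w = ∑ i : Fin 4, ∑ j : Fin 4, v i * (w j * g x (ei i) (ei j)) := by
    conv_lhs => rw [sum_ei v]
    rw [hsum]
    refine Finset.sum_congr rfl fun i _ => ?_
    rw [hg.smul, hg.symm, ← Finset.mul_sum]
    congr 1
    conv_lhs => rw [sum_ei w]
    rw [hsum]
    refine Finset.sum_congr rfl fun j _ => ?_
    rw [hg.smul, hg.symm]
  rw [h1]
  unfold toForm
  simp only [_root_.sum_apply, _root_.smul_apply,
    ContinuousLinearMap.smulRight_apply, smul_eq_mul]
  refine Finset.sum_congr rfl fun i _ => Finset.sum_congr rfl fun j _ => ?_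
  simp
  ring

theorem toForm_metric (hg : IsMetric g) : Toric.IsMetric (toForm g) where
  cont := by
    rw [continuousOn_clm_apply]
    intro v
    rw [continuousOn_clm_apply]
    intro w
    simp_rw [toForm_apply hg]
    exact hg.cont v w
  symm := fun x v w _ _ _ => by
    rw [toForm_apply hg, toForm_apply hg, hg.symm]
  pos := fun x v hx hv h0 => by
    rw [toForm_apply hg]
    exact hg.pos x v hx hv h0
  even := fun x v w hx hv hw => by
    rw [toForm_apply hg, toForm_apply hg]
    exact hg.even x v w hx hv hw

theorem tang_eq (x v : E) : Toric.tang x v = tang x v := rfl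

theorem volDensity_eq (hg : IsMetric g) (x : E) :
    Toric.volDensity (toForm g) x = volDensity g x := by
  unfold Toric.volDensity volDensity
  congr 2
  ext i j
  simp only [Matrix.of_apply, gram]
  rw [toForm_apply hg]
  rfl

theorem vol_eq (hg : IsMetric g) : Toric.vol (toForm g) = vol g := by
  unfold Toric.vol vol
  simp_rw [volDensity_eq hg]

theorem round_metric : IsMetric round where
  add := fun x v v' w => by simp [round, inner_add_left]
  smul := fun x v w r => by simp [round, inner_smul_left]
  symm := fun x v w => by simp [round, real_inner_comm]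
  cont := fun v w => by
    unfold round
    exact continuousOn_const
  pos := fun x v _ _ h0 => by
    unfold round
    exact real_inner_self_pos.mpr h0
  even := fun x v w _ _ _ => rfl

theorem vol_round : Toric.vol Toric.round = vol round := by
  rw [← vol_eq round_metric]
  unfold Toric.vol
  have h : ∀ x, Toric.volDensity Toric.round x = Toric.volDensity (toForm round) x := by
    intro x
    unfold Toric.volDensity
    congr 2
    ext i j
    simp only [Matrix.of_apply]
    rw [toForm_apply round_metric]
    simp only [Toric.round, round]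
    rfl
  simp_rw [h]

theorem isCurve_iff (c : ℝ → E) (x y : E) : Toric.IsCurve c x y ↔ IsCurve c x y :=
  ⟨fun h => ⟨h.smooth, h.sphere, h.left, h.right⟩,
    fun h => ⟨h.smooth, h.sphere, h.left, h.right⟩⟩

theorem length_eq (hg : IsMetric g) (c : ℝ → E) : Toric.length (toForm g) c = length g c := by
  unfold Toric.length length
  simp_rw [toForm_apply hg]

theorem rdist_eq (hg : IsMetric g) (x y : E) : Toric.rdist (toForm g) x y = rdist g x y := by
  unfold Toric.rdist rdist
  simp_rw [isCurve_iff, length_eq hg]

theorem rpDist_eq (hg : IsMetric g) (x y : E) : Toric.rpDist (toForm g) x y = rpDist g x y := by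
  unfold Toric.rpDist rpDist
  rw [rdist_eq hg, rdist_eq hg]

theorem isClosedGeodesic_of (hg : IsMetric g) {γ : ℝ → E} {l : ℝ}
    (h : Toric.IsClosedGeodesic (toForm g) γ l) : IsClosedGeodesic g γ l where
  cont := h.cont
  sphere := h.sphere
  geodesic := by
    obtain ⟨ε, hε, h1⟩ := h.geodesic
    refine ⟨ε, hε, fun s t hst => ?_⟩
    rw [← rpDist_eq hg]
    exact h1 s t hst
  pos := h.pos
  closed := h.closed

theorem rot_eq (θ φ : ℝ) (x : E) : Toric.rot θ φ x = rot θ φ x := by
  unfold Toric.rot rot
  congr 1

theorem conf_of (hg : IsMetric g) (h : ConformallyToric g) :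
    Toric.ConformallyToric (toForm g) := by
  obtain ⟨g₁, u, hg1, ht, hu, hpos, hgu⟩ := h
  refine ⟨toForm g₁, u, toForm_metric hg1, ?_, hu, hpos, ?_⟩
  · intro θ φ x v w hx hv hw
    rw [toForm_apply hg1, toForm_apply hg1, rot_eq, rot_eq, rot_eq]
    exact ht θ φ x v w hx hv hw
  · intro x v w hx hv hw
    rw [toForm_apply hg, toForm_apply hg1]
    exact hgu x v w hx hv hw

end Pool.Agent.Work.MP_02f065_gt.RP3
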