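import Pool.Agent.Work.MP_02f065_gt.RP3.BridgeDefs
import Pool.Agent.Work.MP_02f065_gt.Bd.B06

/-! The theorem in terms of the second version of the definitions. -/

open MeasureTheory Set

noncomputable section

namespace Pool.Agent.Work.MP_02f065_gt.RP3

variable {g : E → E → E → ℝ}

theorem sharp (hg : IsMetric g) (hconf : ConformallyToric g) :
    ∃ (γ : ℝ → E) (l : ℝ), IsClosedGeodesic g γ l ∧ (l / Real.pi) ^ 3 ≤ vol g / vol round := by
  obtain ⟨γ, l, h1, h2⟩ := Toric.sharp (toForm g) (toForm_metric hg) (conf_of hg hconf)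
  refine ⟨γ, l, isClosedGeodesic_of hg h1, ?_⟩
  rw [vol_eq hg, vol_round] at h2
  exact h2

end Pool.Agent.Work.MP_02f065_gt.RP3
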