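import Mathlib

/-!
MP_02f065_gt (closed geodesics of length at most pi on real projective spaces).
Definitions for the theorem on metrics of RP^3 conformal to torus invariant metrics.
A metric on RP^3 is an antipodally invariant metric on the unit sphere S^3 of R^4.
-/

open MeasureTheory Set

noncomputable section

namespace Pool.Agent.Work.MP_02f065_gt.RP3

/-- Euclidean 4-space; its unit sphere is S^3. -/
abbrev E : Type := EuclideanSpace ℝ (Fin 4)

/-- `g x v w` is a (continuous) Riemannian metric on RP^3 = S^3/±1, lifted to S^3: a field of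
symmetric bilinear forms on E, continuous in the point `x` of S^3, positive definite on the
tangent space of S^3 at `x` (the vectors orthogonal to `x`) and invariant under the antipodal
map. Only the values at unit vectors `x`, on vectors orthogonal to `x`, matter. -/
structure IsMetric (g : E → E → E → ℝ) : Prop where
  add : ∀ x v v' w : E, g x (v + v') w = g x v w + g x v' w
  smul : ∀ (x v w : E) (r : ℝ), g x (r • v) w = r * g x v w
  symm : ∀ x v w : E, g x v w = g x w v
  cont : ∀ v w : E, ContinuousOn (fun x => g x v w) (Metric.sphere (0 : E) 1)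
  pos : ∀ x v : E, ‖x‖ = 1 → inner ℝ x v = 0 → v ≠ 0 → 0 < g x v v
  even : ∀ x v w : E, ‖x‖ = 1 → inner ℝ x v = 0 → inner ℝ x w = 0 → g (-x) v w = g x v w

/-- The round metric. -/
def round (_ v w : E) : ℝ := inner ℝ v w

/-- Orthogonal projection to the tangent space at `x`. -/
def tang (x v : E) : E := v - (inner ℝ x v) • x

/-- The standard basis. -/
def ei (i : Fin 4) : E := EuclideanSpace.single i 1

/-- The matrix of `g` on the tangent space at `x`, completed by the unit normal vector `x`. -/
def gram (g : E → E → E → ℝ) (x : E) (i j : Fin 4) : ℝ :=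
  g x (tang x (ei i)) (tang x (ei j)) + x i * x j

/-- The volume density of `g` with respect to the round metric of S^3 at `x`: the square root
of the determinant of `g` on the tangent space. -/
def volDensity (g : E → E → E → ℝ) (x : E) : ℝ :=
  Real.sqrt (Matrix.det (Matrix.of (gram g x)))

/-- The volume of (RP^3, g): half of the volume of (S^3, g). -/
def vol (g : E → E → E → ℝ) : ℝ :=
  (1 / 2) * ∫ x : Metric.sphere (0 : E) 1, volDensity g x ∂((volume : Measure E).toSphere)

/-- `c` is a C^1 curve in S^3 from `x` to `y` (parametrised by [0,1]). -/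
structure IsCurve (c : ℝ → E) (x y : E) : Prop where
  smooth : ContDiff ℝ 1 c
  sphere : ∀ t, ‖c t‖ = 1
  left : c 0 = x
  right : c 1 = y

/-- Length of a C^1 curve. -/
def length (g : E → E → E → ℝ) (c : ℝ → E) : ℝ :=
  ∫ t in (0 : ℝ)..1, Real.sqrt (g (c t) (deriv c t) (deriv c t))

/-- Riemannian distance in (S^3, g): infimum of the lengths of the C^1 curves. -/
def rdist (g : E → E → E → ℝ) (x y : E) : ℝ := sInf {l | ∃ c, IsCurve c x y ∧ length g c = l}

/-- Riemannian distance in (RP^3, g) of the points ±x and ±y. -/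
def rpDist (g : E → E → E → ℝ) (x y : E) : ℝ := min (rdist g x y) (rdist g x (-y))

/-- `γ` is (the continuous lift to S^3 of) a unit speed closed geodesic of (RP^3, g), one
period of which has length `l`: it is locally distance minimising in RP^3 and
`±γ(t + l) = ±γ(t)`. -/
structure IsClosedGeodesic (g : E → E → E → ℝ) (γ : ℝ → E) (l : ℝ) : Prop where
  cont : Continuous γ
  sphere : ∀ t, ‖γ t‖ = 1
  geodesic : ∃ ε > 0, ∀ s t, |s - t| ≤ ε → rpDist g (γ s) (γ t) = |s - t|
  pos : 0 < l
  closed : (∀ t, γ (t + l) = γ t) ∨ (∀ t, γ (t + l) = -γ t)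

/-- The coordinates of `rot`. -/
def rotC (θ φ : ℝ) (x : E) (i : Fin 4) : ℝ :=
  ![Real.cos θ * x 0 - Real.sin θ * x 1, Real.sin θ * x 0 + Real.cos θ * x 1,
    Real.cos φ * x 2 - Real.sin φ * x 3, Real.sin φ * x 2 + Real.cos φ * x 3] i

/-- The action of the torus: rotation by `θ` in the first and by `φ` in the second
coordinate plane. -/
def rot (θ φ : ℝ) (x : E) : E := WithLp.toLp 2 (rotC θ φ x)

/-- `g` is invariant under the torus action. -/
def IsToric (g : E → E → E → ℝ) : Prop :=
  ∀ (θ φ : ℝ) (x v w : E), ‖x‖ = 1 → inner ℝ x v = 0 → inner ℝ x w = 0 →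
    g (rot θ φ x) (rot θ φ v) (rot θ φ w) = g x v w

/-- `g` is conformal to a torus invariant metric. -/
def ConformallyToric (g : E → E → E → ℝ) : Prop :=
  ∃ (g₁ : E → E → E → ℝ) (u : E → ℝ), IsMetric g₁ ∧ IsToric g₁ ∧
    ContinuousOn u (Metric.sphere (0 : E) 1) ∧ (∀ x, ‖x‖ = 1 → 0 < u x) ∧
    ∀ x v w : E, ‖x‖ = 1 → inner ℝ x v = 0 → inner ℝ x w = 0 → g x v w = u x * g₁ x v w

end Pool.Agent.Work.MP_02f065_gt.RP3
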